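import Mathlib
import Pool.Agent.H727.T1
import Pool.Agent.H727.T2
import Pool.Agent.H727.T4

/-!
# MP_846857: the number of `n ≤ N` with `a(n) = σ(n)` is at most `8 N exp(-√(log N) / 4)`
-/

set_option autoImplicit false

namespace Pool.Agent.Results.MP_846857_nt.Count

open Finset

/-- The function of the problem: `a(n) = n τ(n) - ∑_{d ∣ n, d < n} d τ(d)`. -/
def a (n : ℕ) : ℤ :=
  (n : ℤ) * n.divisors.card - ∑ d ∈ n.properDivisors, (d : ℤ) * d.divisors.card

/-- `σ(n)`, the sum of the divisors of `n`. -/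
def sig (n : ℕ) : ℤ := ∑ d ∈ n.divisors, (d : ℤ)

open Classical in
/-- the solutions with a prime factor `p > D`, `p ∥ n` -/
theorem big_prime (D N : ℕ) (hD : 0 < D) :
    ((Icc 1 N).filter (fun n => a n = sig n ∧ ∃ p, D < p ∧ p.Prime ∧ p ∣ n ∧ ¬ p ^ 2 ∣ n)).card ≤
      N / D := by
  set T := (Icc 1 N).filter (fun n => a n = sig n ∧ ∃ p, D < p ∧ p.Prime ∧ p ∣ n ∧ ¬ p ^ 2 ∣ n)
    with hT
  have hex : ∀ n, ∃ p, n ∈ T → D < p ∧ p.Prime ∧ p ∣ n ∧ ¬ p ^ 2 ∣ n := by
    intro n
    by_cases hn : n ∈ T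
    · obtain ⟨p, hp⟩ := (mem_filter.1 hn).2.2
      exact ⟨p, fun _ => hp⟩
    · exact ⟨0, fun h => absurd h hn⟩
  choose P hP using hex
  have hcard : T.card ≤ (Icc 1 (N / D)).card := by
    apply Finset.card_le_card_of_injOn (fun n => n / P n)
    · intro n hn
      have hn' : n ∈ T := hn
      obtain ⟨h1, h2, h3, h4⟩ := hP n hn'
      have hnN := mem_Icc.1 (mem_filter.1 hn').1
      rw [mem_coe, mem_Icc]
      constructor
      · exact Nat.div_pos (Nat.le_of_dvd (by omega) h3) h2.pos
      · calc n / P n ≤ n / D := Nat.div_le_div_left h1.le hD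
          _ ≤ N / D := Nat.div_le_div_right hnN.2
    · intro x hx y hy hxy
      have hx' : x ∈ T := hx
      have hy' : y ∈ T := hy
      obtain ⟨-, hp, hpx, hpx2⟩ := hP x hx'
      obtain ⟨-, hq, hqy, hqy2⟩ := hP y hy'
      simp only at hxy
      set p := P x
      set q := P y
      obtain ⟨m, hm⟩ := hpx
      obtain ⟨m', hm'⟩ := hqy
      have e1 : x / p = m := by rw [hm]; exact Nat.mul_div_cancel_left m hp.pos
      have e2 : y / q = m' := by rw [hm']; exact Nat.mul_div_cancel_left m' hq.pos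
      rw [e1, e2] at hxy
      subst hxy
      have hm0 : m ≠ 0 := by
        rintro rfl
        have := (mem_Icc.1 (mem_filter.1 hx').1).1
        omega
      have hpm : ¬ p ∣ m := by
        intro h
        apply hpx2
        rw [hm, pow_two]
        exact mul_dvd_mul_left p h
      have hqm : ¬ q ∣ m := by
        intro h
        apply hqy2
        rw [hm', pow_two]
        exact mul_dvd_mul_left q h
      have ha : a x = sig x := (mem_filter.1 hx').2.1
      have hb : a y = sig y := (mem_filter.1 hy').2.1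
      rw [hm, mul_comm] at ha
      rw [hm', mul_comm] at hb
      have := Pool.Agent.H727.T.det_unique hp hq hm0 hpm hqm ha hb
      rw [hm, hm', this]
  rwa [Nat.card_Icc, Nat.add_sub_cancel] at hcard

/-- splitting of the solutions -/
theorem split (D N : ℕ) (hD : 0 < D) :
    (((Icc 1 N).filter (fun n => a n = sig n)).card : ℝ) ≤
      ((Icc 1 N).filter (fun n => n ∈ Nat.smoothNumbers (D + 1))).card + 2 * ((N : ℝ) / D) := by
  classical
  have hsub : (Icc 1 N).filter (fun n => a n = sig n) ⊆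
      ((Icc 1 N).filter (fun n => n ∈ Nat.smoothNumbers (D + 1)) ∪
      (Icc 1 N).filter (fun n => a n = sig n ∧ ∃ p, D < p ∧ p.Prime ∧ p ∣ n ∧ ¬ p ^ 2 ∣ n)) ∪
      (Icc 1 N).filter (fun n => ∃ d ∈ Ioc D N, d ^ 2 ∣ n) := by
    intro n hn
    rw [mem_filter] at hn
    obtain ⟨hnN, ha⟩ := hn
    have hnN' := mem_Icc.1 hnN
    by_cases hs : n ∈ Nat.smoothNumbers (D + 1)
    · exact mem_union_left _ (mem_union_left _ (mem_filter.2 ⟨hnN, hs⟩))
    · rw [Nat.mem_smoothNumbers'] at hs
      push Not at hs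
      obtain ⟨p, hp, hpn, hpD⟩ := hs
      by_cases h2 : p ^ 2 ∣ n
      · apply mem_union_right
        refine mem_filter.2 ⟨hnN, p, mem_Ioc.2 ⟨by omega, ?_⟩, h2⟩
        exact (Nat.le_of_dvd (by omega) hpn).trans hnN'.2
      · apply mem_union_left
        apply mem_union_right
        exact mem_filter.2 ⟨hnN, ha, p, by omega, hp, hpn, h2⟩
  have h1 := (card_le_card hsub).trans ((card_union_le _ _).trans
    (Nat.add_le_add_right (card_union_le _ _) _))
  have h2 := big_prime D N hD
  have h3 := Pool.Agent.H727.T.sq_count D N hD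
  have h4 : ((N / D : ℕ) : ℝ) ≤ (N : ℝ) / D := Nat.cast_div_le
  have h5 : (((Icc 1 N).filter (fun n => a n = sig n)).card : ℝ) ≤
      ((Icc 1 N).filter (fun n => n ∈ Nat.smoothNumbers (D + 1))).card +
      ((Icc 1 N).filter (fun n => a n = sig n ∧ ∃ p, D < p ∧ p.Prime ∧ p ∣ n ∧ ¬ p ^ 2 ∣ n)).card +
      (((Icc 1 N).filter (fun n => ∃ d ∈ Ioc D N, d ^ 2 ∣ n)).card : ℝ) := by
    exact_mod_cast h1
  have h6 : (((Icc 1 N).filter (fun n => a n = sig n ∧
      ∃ p, D < p ∧ p.Prime ∧ p ∣ n ∧ ¬ p ^ 2 ∣ n)).card : ℝ) ≤ ((N / D : ℕ) : ℝ) := by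
    exact_mod_cast h2
  linarith

/-- **An upper bound for the number of solutions.**  For every `N ≥ 1` the number of the positive
integers `n ≤ N` with `a(n) = σ(n)` is at most `8 N exp(-√(log N) / 4)`. -/
theorem result (N : ℕ) (hN : 1 ≤ N) :
    (((Icc 1 N).filter (fun n => a n = sig n)).card : ℝ) ≤
      8 * N * Real.exp (-(Real.sqrt (Real.log N) / 4)) := by
  have hN1 : (1 : ℝ) ≤ N := by exact_mod_cast hN
  have hN0 : (0 : ℝ) < N := by linarith
  set L := Real.sqrt (Real.log N) with hL
  have hlogN : 0 ≤ Real.log N := Real.log_nonneg hN1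
  have hL0 : 0 ≤ L := Real.sqrt_nonneg _
  have hL2 : L * L = Real.log N := Real.mul_self_sqrt hlogN
  rcases lt_or_ge L 8 with h8 | h8
  · have h1 : (((Icc 1 N).filter (fun n => a n = sig n)).card : ℝ) ≤ N := by
      have := card_filter_le (Icc 1 N) (fun n => a n = sig n)
      rw [Nat.card_Icc, Nat.add_sub_cancel] at this
      exact_mod_cast this
    have h2 : Real.exp (-2) ≤ Real.exp (-(L / 4)) := Real.exp_le_exp.2 (by linarith)
    have h3 : (1 : ℝ) / 8 ≤ Real.exp (-2) := by
      rw [Real.exp_neg, one_div]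
      apply inv_anti₀ (Real.exp_pos _)
      have h4 := Real.exp_one_lt_d9.le
      have h5 : Real.exp 2 = Real.exp 1 * Real.exp 1 := by
        rw [← Real.exp_add]; norm_num
      rw [h5]
      have h6 := Real.exp_pos 1
      nlinarith
    have h4 : (1 : ℝ) ≤ 8 * Real.exp (-(L / 4)) := by linarith
    calc _ ≤ (N : ℝ) := h1
      _ = N * 1 := by ring
      _ ≤ N * (8 * Real.exp (-(L / 4))) := mul_le_mul_of_nonneg_left h4 hN0.le
      _ = _ := by ring
  · set y := Real.exp (L / 4) with hy
    have hlogy : Real.log y = L / 4 := Real.log_exp _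
    have hy2 : 2 ≤ Real.log y := by rw [hlogy]; linarith
    have hy1 : 2 ≤ y := by
      have := Real.add_one_le_exp (L / 4)
      linarith
    set D := ⌊y⌋₊ with hD
    have hD0 : 0 < D := Nat.floor_pos.2 (by linarith)
    have hDy : y / 2 ≤ D := by
      have := Nat.lt_floor_add_one y
      linarith
    have hD0' : (0 : ℝ) < D := by exact_mod_cast hD0
    have hs := split D N hD0
    have hr := Pool.Agent.H727.T.smooth_bound (D + 1) N (σ := 1 - 1 / Real.log y) (by
      have : 1 / Real.log y ≤ 1 / 2 := one_div_le_one_div_of_le two_pos hy2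
      linarith)
    have hp := Pool.Agent.H727.T.prod_bound (by linarith : 1 < y) hy2
    have h1 : (N : ℝ) ^ (1 - 1 / Real.log y) = N * Real.exp (-(4 * L)) := by
      rw [Real.rpow_sub hN0, Real.rpow_one, div_eq_mul_inv, ← Real.rpow_neg hN0.le,
        Real.rpow_def_of_pos hN0, hlogy, ← hL2]
      congr 2
      have : L ≠ 0 := by linarith
      field_simp
    rw [h1] at hr
    have h2 : (((Icc 1 N).filter (fun n => n ∈ Nat.smoothNumbers (D + 1))).card : ℝ) ≤
        N * Real.exp (-(L / 4)) := by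
      calc _ ≤ _ := hr
        _ ≤ N * Real.exp (-(4 * L)) * Real.exp (11 * Real.log y) :=
            mul_le_mul_of_nonneg_left hp (by positivity)
        _ = N * Real.exp (-(4 * L) + 11 * (L / 4)) := by
            rw [hlogy, mul_assoc, ← Real.exp_add]
        _ ≤ _ := by
            apply mul_le_mul_of_nonneg_left _ hN0.le
            apply Real.exp_le_exp.2
            linarith
    have h3 : (N : ℝ) / D ≤ 2 * (N * Real.exp (-(L / 4))) := by
      rw [Real.exp_neg, ← hy, div_le_iff₀ hD0']
      have hy0 : 0 < y := by linarith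
      have : 2 * (N * y⁻¹) * D = N * (D / (y / 2)) := by field_simp
      rw [this]
      have h5 : 1 ≤ D / (y / 2) := by rw [one_le_div (by linarith)]; exact hDy
      nlinarith
    have h4 : 0 < N * Real.exp (-(L / 4)) := by positivity
    calc _ ≤ _ := hs
      _ ≤ N * Real.exp (-(L / 4)) + 2 * (2 * (N * Real.exp (-(L / 4)))) := by linarith
      _ ≤ _ := by nlinarith

end Pool.Agent.Results.MP_846857_nt.Count
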