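import Mathlib
import Pool.Agent.H727.T1
import Pool.Agent.H727.T3

/-!
# MP_846857: an exact 2-adic criterion for the odd part of a solution of `a(n) = σ(n)`
-/

set_option autoImplicit false

namespace Pool.Agent.Results.MP_846857_nt.TwoAdic

open Finset
open Pool.Agent.H727.T (FA oo ss rr)

/-- The function of the problem: `a(n) = n τ(n) - ∑_{d ∣ n, d < n} d τ(d)`. -/
def a (n : ℕ) : ℤ :=
  (n : ℤ) * n.divisors.card - ∑ d ∈ n.properDivisors, (d : ℤ) * d.divisors.card

/-- `σ(n)`, the sum of the divisors of `n`. -/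
def sig (n : ℕ) : ℤ := ∑ d ∈ n.divisors, (d : ℤ)

theorem main {k m : ℕ} (hm : Odd m) (h : a (2 ^ k * m) = sig (2 ^ k * m)) :
    oo m ≤ ss m ∧ (ss m = oo m + rr m ∨ (oo m + (k + 1) ≤ ss m ∧ k + 1 ≤ rr m)) := by
  have hm0 : m ≠ 0 := by rintro rfl; exact absurd hm (by decide)
  set t := (m.divisors.card).factorization 2 with ht
  have h1 : 2 ^ t ∣ m.divisors.card := Nat.ordProj_dvd _ _
  obtain ⟨h2, h3⟩ := Pool.Agent.H727.T.crit hm h1 h
  have hF0 : FA m ≠ 0 := by
    rw [Pool.Agent.H727.T.FA_prod hm0]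
    apply Finset.prod_ne_zero_iff.2
    intro p hp
    exact Pool.Agent.H727.T.S_ne_zero (Nat.prime_of_mem_primeFactors hp).pos _
  set s := ArithmeticFunction.sigma 1 m with hs
  have hs0 : s ≠ 0 := by
    rw [hs, Pool.Agent.H727.T.sigma_prod hm0]
    apply Finset.prod_ne_zero_iff.2
    intro p hp
    exact Pool.Agent.H727.T.G_ne_zero (Nat.prime_of_mem_primeFactors hp).pos _
  have e1 := Pool.Agent.H727.T.FA_card hm
  have e2 := Pool.Agent.H727.T.sigma_card hm
  rw [← ht] at e1 e2
  rw [← hs] at e2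
  have hsum : (∑ d ∈ m.divisors, (d : ℤ)) = (s : ℤ) := by
    rw [hs, ArithmeticFunction.sigma_one_apply]; push_cast; rfl
  rw [hsum] at h3
  have h4 : t ≤ (FA m).factorization 2 :=
    (Nat.prime_two.pow_dvd_iff_le_factorization hF0).1 h2
  have key : ∀ j, j ≤ t + k + 1 → (2 ^ j ∣ FA m ↔ 2 ^ j ∣ s) := by
    intro j hj
    have h5 : (2 : ℤ) ^ j ∣ (FA m : ℤ) - s := (pow_dvd_pow 2 hj).trans h3
    constructor
    · intro h6
      have h7 : (2 : ℤ) ^ j ∣ (FA m : ℤ) := by exact_mod_cast h6
      have h8 := dvd_sub h7 h5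
      rw [sub_sub_cancel] at h8
      exact_mod_cast h8
    · intro h6
      have h7 : (2 : ℤ) ^ j ∣ (s : ℤ) := by exact_mod_cast h6
      have h8 := dvd_add h5 h7
      rw [sub_add_cancel] at h8
      exact_mod_cast h8
  have key2 : ∀ j, j ≤ t + k + 1 → (j ≤ (FA m).factorization 2 ↔ j ≤ s.factorization 2) := by
    intro j hj
    rw [← Nat.prime_two.pow_dvd_iff_le_factorization hF0,
      ← Nat.prime_two.pow_dvd_iff_le_factorization hs0]
    exact key j hj
  refine ⟨by omega, ?_⟩
  by_cases hc : t + k + 1 ≤ (FA m).factorization 2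
  · right
    have := (key2 (t + k + 1) le_rfl).1 hc
    omega
  · left
    have h5 := (key2 ((FA m).factorization 2) (by omega)).1 le_rfl
    have h6 : ¬ (FA m).factorization 2 + 1 ≤ s.factorization 2 := by
      intro h7
      have := (key2 ((FA m).factorization 2 + 1) (by omega)).2 h7
      omega
    omega

/-- **The 2-adic criterion.**  Let `m` be odd and `n = 2 ^ k m` with `a(n) = σ(n)`.  Let `o` be the
number of the primes dividing `m` to an odd power, `s` the sum of `v_2(e/2 + 1)` over the primes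
that divide `m` exactly to an even power `e`, and `r` the sum of `v_2(p + 1) - 1` over the primes
`p` that divide `m` to an odd power.  Then `o ≤ s`, and `s - o = r` or both `s - o` and `r` are at
least `k + 1`. -/
theorem result (k m : ℕ) (hm : Odd m) (h : a (2 ^ k * m) = sig (2 ^ k * m)) (o s r : ℕ)
    (ho : o = (m.primeFactors.filter (fun p => Odd (m.factorization p))).card)
    (hs : s = ∑ p ∈ m.primeFactors.filter (fun p => Even (m.factorization p)),
      padicValNat 2 (m.factorization p / 2 + 1))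
    (hr : r = ∑ p ∈ m.primeFactors.filter (fun p => Odd (m.factorization p)),
      (padicValNat 2 (p + 1) - 1)) :
    o ≤ s ∧ (s - o = r ∨ (k + 1 ≤ s - o ∧ k + 1 ≤ r)) := by
  have h1 := main hm h
  have e1 : oo m = o := ho.symm
  have e2 : ss m = s := hs.symm
  have e3 : rr m = r := hr.symm
  rw [e1, e2, e3] at h1
  omega

end Pool.Agent.Results.MP_846857_nt.TwoAdic
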