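import Mathlib
import Pool.Agent.H727.T1
import Pool.Agent.H727.T3
import Pool.Agent.H727.T5

/-!
# MP_846857: the window for the exponent of two in a solution of `a(n) = σ(n)`
-/

set_option autoImplicit false

namespace Pool.Agent.Results.MP_846857_nt.Window

open Finset
open Pool.Agent.H727.T (FA gg uu)

/-- The function of the problem: `a(n) = n τ(n) - ∑_{d ∣ n, d < n} d τ(d)`. -/
def a (n : ℕ) : ℤ :=
  (n : ℤ) * n.divisors.card - ∑ d ∈ n.properDivisors, (d : ℤ) * d.divisors.card

/-- `σ(n)`, the sum of the divisors of `n`. -/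
def sig (n : ℕ) : ℤ := ∑ d ∈ n.divisors, (d : ℤ)

/-- the equation `α G + β H = α + β` -/
theorem real_eq {k m : ℕ} (hm : Odd m) (h : a (2 ^ k * m) = sig (2 ^ k * m)) :
    ((k : ℝ) * 2 ^ (k + 1) + 1) * ∏ p ∈ m.primeFactors, gg p (m.factorization p) +
      (2 ^ (k + 1) - 1) * ∏ p ∈ m.primeFactors, uu p (m.factorization p) =
      (k + 1) * 2 ^ (k + 1) := by
  have hm0 : m ≠ 0 := by rintro rfl; exact absurd hm (by decide)
  have h1 := Pool.Agent.H727.T.main_eq hm h
  have hsum : (∑ d ∈ m.divisors, (d : ℤ)) = (ArithmeticFunction.sigma 1 m : ℤ) := by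
    rw [ArithmeticFunction.sigma_one_apply]; push_cast; rfl
  rw [hsum] at h1
  have h2 : (2 : ℝ) ^ (k + 1) * ((k + 1) * (m * m.divisors.card)) =
      (2 ^ (k + 1) - 1) * (ArithmeticFunction.sigma 1 m : ℝ) +
        (k * 2 ^ (k + 1) + 1) * (FA m : ℝ) := by
    exact_mod_cast h1
  rw [Pool.Agent.H727.T.G_real hm0, Pool.Agent.H727.T.H_real hm0] at h2
  have h3 : (m : ℝ) * m.divisors.card ≠ 0 := by
    have e1 : (m : ℝ) ≠ 0 := by exact_mod_cast hm0
    have e2 : m.divisors.card ≠ 0 := by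
      rw [Finset.card_ne_zero]
      exact ⟨1, Nat.one_mem_divisors.2 hm0⟩
    have e3 : (m.divisors.card : ℝ) ≠ 0 := by exact_mod_cast e2
    exact mul_ne_zero e1 e3
  apply mul_left_cancel₀ h3
  linear_combination -h2

/-- the three inequalities, in product form -/
theorem window {k m : ℕ} (hm : Odd m) (hm1 : m ≠ 1) (h : a (2 ^ k * m) = sig (2 ^ k * m)) :
    ((k + 1) * 2 ^ (k + 1) * ∏ p ∈ m.primeFactors, (p - 1) <
      (k * 2 ^ (k + 1) + 1) * ∏ p ∈ m.primeFactors, p) ∧
    (∃ p ∈ m.primeFactors, k + 2 ≤ p) ∧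
    (k : ℝ) * ∑ p ∈ m.primeFactors, 1 / (p : ℝ) < 2 := by
  have hm0 : m ≠ 0 := by rintro rfl; exact absurd hm (by decide)
  have heq := real_eq hm h
  have hpr : ∀ p ∈ m.primeFactors, (3 : ℝ) ≤ p := by
    intro p hp
    have h1 := (Nat.prime_of_mem_primeFactors hp).two_le
    have h2 := Pool.Agent.H727.T.odd_of_mem hm hp
    have h3 : p ≠ 2 := by rintro rfl; exact absurd h2 (by decide)
    exact_mod_cast (by omega : 3 ≤ p)
  have hlt : ∀ p ∈ m.primeFactors, 1 < p := fun p hp => (Nat.prime_of_mem_primeFactors hp).one_lt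
  have hfe : ∀ p ∈ m.primeFactors, 1 ≤ m.factorization p := fun p hp =>
    (Nat.prime_of_mem_primeFactors hp).factorization_pos_of_dvd hm0
      (Nat.dvd_of_mem_primeFactors hp)
  set x : ℕ → ℝ := fun p => 1 / ((p : ℝ) - 1) with hx
  set u : ℕ → ℝ := fun p => uu p (m.factorization p) with hu
  have hG : ∏ p ∈ m.primeFactors, gg p (m.factorization p) =
      ∏ p ∈ m.primeFactors, (1 + x p * (1 - u p)) :=
    Finset.prod_congr rfl fun p hp => Pool.Agent.H727.T.gg_eq (hlt p hp) _
  rw [hG] at heq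
  have hx0 : ∀ p ∈ m.primeFactors, 0 ≤ x p := by
    intro p hp
    have := hpr p hp
    have : 0 ≤ (p : ℝ) - 1 := by linarith
    simp only [hx]; positivity
  have hu0 : ∀ p ∈ m.primeFactors, 0 < u p := fun p hp => Pool.Agent.H727.T.uu_pos (hlt p hp) _
  have hul : ∀ p ∈ m.primeFactors, u p ≤ (1 + 1 / (p : ℝ)) / 2 :=
    fun p hp => Pool.Agent.H727.T.uu_le (hlt p hp) (hfe p hp)
  have hu1 : ∀ p ∈ m.primeFactors, u p ≤ 2 / 3 := by
    intro p hp
    have h1 := hul p hp
    have h2 : 1 / (p : ℝ) ≤ 1 / 3 := one_div_le_one_div_of_le (by norm_num) (hpr p hp)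
    linarith
  have hne : m.primeFactors.Nonempty := Nat.nonempty_primeFactors.2 (by
    have := Nat.pos_of_ne_zero hm0; omega)
  have hH1 : ∏ p ∈ m.primeFactors, u p < 1 := by
    obtain ⟨q, hq⟩ := hne
    rw [← Finset.mul_prod_erase _ _ hq]
    have e1 : ∏ p ∈ m.primeFactors.erase q, u p ≤ 1 :=
      Finset.prod_le_one (fun p hp => (hu0 p (mem_of_mem_erase hp)).le)
        (fun p hp => (hu1 p (mem_of_mem_erase hp)).trans (by norm_num))
    have e2 := hu1 q hq
    have e3 := hu0 q hq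
    nlinarith
  have hH0 : 0 ≤ ∏ p ∈ m.primeFactors, u p := Finset.prod_nonneg fun p hp => (hu0 p hp).le
  obtain ⟨-, -, -, hup⟩ := Pool.Agent.H727.T.L_up m.primeFactors x u hx0
    (fun p hp => (hu0 p hp).le) (fun p hp => (hu1 p hp).trans (by norm_num))
  set Gm := ∏ p ∈ m.primeFactors, (1 + x p * (1 - u p)) with hGm
  set Hm := ∏ p ∈ m.primeFactors, u p with hHm
  set M := ∏ p ∈ m.primeFactors, (1 + x p) with hM
  set T : ℝ := 2 ^ (k + 1) with hT
  have hT2 : (2 : ℝ) ≤ T := by
    rw [hT, pow_succ]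
    have : (1 : ℝ) ≤ 2 ^ k := one_le_pow₀ (by norm_num)
    linarith
  have hk0 : (0 : ℝ) ≤ k := Nat.cast_nonneg k
  have hA : 0 < (k : ℝ) * T + 1 := by positivity
  have hB : 0 < T - 1 := by linarith
  refine ⟨?_, ?_, ?_⟩
  · -- (a)
    have h1 : ((k : ℝ) + 1) * T ≤ (k * T + 1) * M := by
      have e1 := mul_le_mul_of_nonneg_left hup hA.le
      have e2 : ((k + 1) * T) * (1 - Hm) ≤ ((k * T + 1) * M) * (1 - Hm) := by nlinarith
      exact le_of_mul_le_mul_right e2 (by linarith)
    have h2 : M * ((∏ p ∈ m.primeFactors, (p - 1) : ℕ) : ℝ) =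
        ((∏ p ∈ m.primeFactors, p : ℕ) : ℝ) := by
      rw [hM]
      push_cast
      rw [← Finset.prod_mul_distrib]
      refine Finset.prod_congr rfl fun p hp => ?_
      have e1 := hpr p hp
      have e2 : (p : ℝ) - 1 ≠ 0 := by linarith
      rw [Nat.cast_sub (hlt p hp).le]
      simp only [hx, Nat.cast_one]
      field_simp
      ring
    have h3 : (k + 1) * 2 ^ (k + 1) * ∏ p ∈ m.primeFactors, (p - 1) ≤
      (k * 2 ^ (k + 1) + 1) * ∏ p ∈ m.primeFactors, p := by
      have e1 : ((k : ℝ) + 1) * T * ((∏ p ∈ m.primeFactors, (p - 1) : ℕ) : ℝ) ≤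
          (k * T + 1) * ((∏ p ∈ m.primeFactors, p : ℕ) : ℝ) := by
        rw [← h2, ← mul_assoc]
        exact mul_le_mul_of_nonneg_right h1 (Nat.cast_nonneg _)
      rw [hT] at e1
      exact_mod_cast e1
    refine lt_of_le_of_ne h3 ?_
    intro h4
    have h5 : Odd ((k * 2 ^ (k + 1) + 1) * ∏ p ∈ m.primeFactors, p) := by
      apply Odd.mul
      · exact ⟨k * 2 ^ k, by ring⟩
      · exact Finset.prod_induction _ Odd (fun _ _ => Odd.mul) odd_one
          (fun p hp => Pool.Agent.H727.T.odd_of_mem hm hp)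
    rw [← h4] at h5
    have h6 : Even ((k + 1) * 2 ^ (k + 1) * ∏ p ∈ m.primeFactors, (p - 1)) := by
      rw [pow_succ]
      exact ⟨(k + 1) * 2 ^ k * ∏ p ∈ m.primeFactors, (p - 1), by ring⟩
    exact (Nat.not_even_iff_odd.2 h5) h6
  · -- (b)
    by_contra hcon
    push Not at hcon
    obtain ⟨q, hq⟩ := hne
    have hk2 : 2 ≤ k := by
      have h1 := hcon q hq
      have h2 := hpr q hq
      have h3 : 3 ≤ q := by exact_mod_cast h2
      omega
    have hkpos : (0 : ℝ) < k := by exact_mod_cast (by omega : 0 < k)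
    have hx1 : ∀ p ∈ m.primeFactors, 1 / (k : ℝ) ≤ x p := by
      intro p hp
      have h1 := hcon p hp
      have h2 := hpr p hp
      have h3 : (p : ℝ) ≤ k + 1 := by exact_mod_cast (by omega : p ≤ k + 1)
      exact one_div_le_one_div_of_le (by linarith) (by linarith)
    have hlow := Pool.Agent.H727.T.L_low m.primeFactors x u (1 / (k : ℝ)) (by positivity) hx1
      (fun p hp => (hu0 p hp).le) (fun p hp => (hu1 p hp).trans (by norm_num))
    rw [← hGm, ← hHm] at hlow
    have e1 := mul_le_mul_of_nonneg_left hlow hA.le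
    have e2 : (k * T + 1) * (1 / (k : ℝ)) = T + 1 / k := by
      field_simp
    have e3 : (k * T + 1) * (1 + 1 / (k : ℝ) * (1 - Hm)) =
        k * T + 1 + (T + 1 / k) * (1 - Hm) := by
      rw [← e2]; ring
    rw [e3] at e1
    have e4 : 0 < 1 / (k : ℝ) := by positivity
    nlinarith
  · -- (c)
    have hsum := Pool.Agent.H727.T.L_sum m.primeFactors (fun p => x p * (1 - u p)) (by
      intro p hp
      exact mul_nonneg (hx0 p hp) (by have := hu1 p hp; linarith))
    rw [← hGm] at hsum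
    have h1 : (∑ p ∈ m.primeFactors, 1 / (p : ℝ)) / 2 ≤
        ∑ p ∈ m.primeFactors, x p * (1 - u p) := by
      rw [Finset.sum_div]
      apply Finset.sum_le_sum
      intro p hp
      have e1 := hpr p hp
      have e2 := hul p hp
      have e3 : 0 < (p : ℝ) - 1 := by linarith
      have e4 : 0 < (p : ℝ) := by linarith
      have e5 : 1 / (p : ℝ) / 2 = x p * (1 - (1 + 1 / (p : ℝ)) / 2) := by
        simp only [hx]
        field_simp
        ring
      rw [e5]
      exact mul_le_mul_of_nonneg_left (by linarith) (hx0 p hp)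
    set R := ∑ p ∈ m.primeFactors, 1 / (p : ℝ) with hR
    have h2 : (k * T + 1) * (R / 2) < T - 1 := by
      have e1 : (k * T + 1) * (1 + R / 2) ≤ (k * T + 1) * Gm :=
        mul_le_mul_of_nonneg_left (by linarith) hA.le
      have e2 : 0 < ∏ p ∈ m.primeFactors, u p := Finset.prod_pos hu0
      rw [← hHm] at e2
      nlinarith
    have hR0 : 0 ≤ R := Finset.sum_nonneg fun p _ => by positivity
    nlinarith

/-- **The window for the exponent of two.**  Let `m > 1` be odd, let `k ≥ 0` and suppose that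
`n = 2 ^ k m` satisfies `a(n) = σ(n)`.  Then
`(k + 1) 2 ^ (k + 1) φ(m) < (k 2 ^ (k + 1) + 1) m`, some prime factor of `m` is at least `k + 2`,
`k ∑_{p ∣ m} 1 / p < 2`, and `n` has at least three different prime factors. -/
theorem result (k m : ℕ) (hm : Odd m) (hm1 : m ≠ 1) (h : a (2 ^ k * m) = sig (2 ^ k * m)) :
    (k + 1) * 2 ^ (k + 1) * m.totient < (k * 2 ^ (k + 1) + 1) * m ∧
    (∃ p ∈ m.primeFactors, k + 2 ≤ p) ∧
    (k : ℝ) * ∑ p ∈ m.primeFactors, 1 / (p : ℝ) < 2 ∧
    3 ≤ (2 ^ k * m).primeFactors.card := by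
  have hm0 : m ≠ 0 := by rintro rfl; exact absurd hm (by decide)
  obtain ⟨h1, h2, h3⟩ := window hm hm1 h
  refine ⟨?_, h2, h3, ?_⟩
  · have e1 := Nat.totient_mul_prod_primeFactors m
    have hP : 0 < ∏ p ∈ m.primeFactors, p :=
      Finset.prod_pos fun p hp => (Nat.prime_of_mem_primeFactors hp).pos
    apply lt_of_mul_lt_mul_right (a := ∏ p ∈ m.primeFactors, p) _ (Nat.zero_le _)
    calc (k + 1) * 2 ^ (k + 1) * m.totient * ∏ p ∈ m.primeFactors, p
        = m * ((k + 1) * 2 ^ (k + 1) * ∏ p ∈ m.primeFactors, (p - 1)) := by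
          rw [mul_assoc, e1]; ring
      _ < m * ((k * 2 ^ (k + 1) + 1) * ∏ p ∈ m.primeFactors, p) :=
          Nat.mul_lt_mul_of_pos_left h1 (Nat.pos_of_ne_zero hm0)
      _ = _ := by ring
  · have hodd : ∀ p ∈ m.primeFactors, 3 ≤ p ∧ p.Prime ∧ Odd p := by
      intro p hp
      have e1 := Nat.prime_of_mem_primeFactors hp
      have e2 := Pool.Agent.H727.T.odd_of_mem hm hp
      have e3 : p ≠ 2 := by rintro rfl; exact absurd e2 (by decide)
      have := e1.two_le
      exact ⟨by omega, e1, e2⟩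
    have hne : m.primeFactors.Nonempty := Nat.nonempty_primeFactors.2 (by
      have := Nat.pos_of_ne_zero hm0; omega)
    have hc1 : 0 < m.primeFactors.card := hne.card_pos
    have hc2 : m.primeFactors.card ≠ 1 := by
      intro hc
      obtain ⟨p, hp⟩ := Finset.card_eq_one.1 hc
      rw [hp] at h1 h2
      rw [Finset.prod_singleton, Finset.prod_singleton] at h1
      obtain ⟨q, hq, hq2⟩ := h2
      rw [mem_singleton] at hq
      subst hq
      have hk : k + 1 < 2 ^ (k + 1) := Nat.lt_two_pow_self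
      obtain ⟨r, rfl⟩ : ∃ r, q = r + 1 := ⟨q - 1, by omega⟩
      rw [Nat.add_sub_cancel] at h1
      have hr : k + 1 ≤ r := by omega
      set T := 2 ^ (k + 1) with hT
      have e1 : (k + 1) * T * r = k * T * r + T * r := by ring
      have e2 : (k * T + 1) * (r + 1) = k * T * r + k * T + r + 1 := by ring
      rw [e1, e2] at h1
      -- T r < k T + r + 1
      have e3 : T * r < k * T + r + 1 := by omega
      obtain ⟨s, rfl⟩ : ∃ s, r = k + 1 + s := ⟨r - (k + 1), by omega⟩
      have e4 : T * (k + 1 + s) = k * T + T + T * s := by ring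
      rw [e4] at e3
      have e5 : s ≤ T * s := Nat.le_mul_of_pos_left s (by omega)
      omega
    rcases Nat.eq_zero_or_pos k with rfl | hk
    · rw [pow_zero, one_mul]
      have hc3 : m.primeFactors.card ≠ 2 := by
        intro hc
        obtain ⟨p, q, hpq, hm2⟩ := Finset.card_eq_two.1 hc
        have ep := hodd p (by rw [hm2]; simp)
        have eq := hodd q (by rw [hm2]; simp)
        rw [hm2, Finset.prod_pair hpq, Finset.prod_pair hpq] at h1
        obtain ⟨r, rfl⟩ : ∃ r, p = r + 3 := ⟨p - 3, by omega⟩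
        obtain ⟨s, rfl⟩ : ∃ s, q = s + 3 := ⟨q - 3, by omega⟩
        have e1 : r + 3 - 1 = r + 2 := by omega
        have e2 : s + 3 - 1 = s + 2 := by omega
        rw [e1, e2] at h1
        norm_num at h1
        have h5 : 2 ≤ r + s := by
          obtain ⟨i, hi⟩ := ep.2.2
          obtain ⟨j, hj⟩ := eq.2.2
          omega
        nlinarith [Nat.zero_le (r * s)]
      omega
    · have hcop : Nat.Coprime (2 ^ k) m := (Nat.coprime_two_left.2 hm).pow_left k
      rw [hcop.primeFactors_mul, Finset.card_union_of_disjoint hcop.disjoint_primeFactors,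
        Nat.primeFactors_prime_pow hk.ne' Nat.prime_two, Finset.card_singleton]
      omega

end Pool.Agent.Results.MP_846857_nt.Window
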